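import Pool.Agent.Helper95.HadaMain

/-!
# Hadamard series: infinite radial limits on a large set of every arc

The file adapts the proof of `main_ser` in `Pool/Agent/Helper95/HadaMain.lean` (starting files): the
point is found in a prescribed interval and outside prescribed small intervals.
-/

set_option autoImplicit false

open Filter Topology Set

namespace Pool.Agent.Y971.HD

open Pool.Agent.Helper95.Hada

/-- the conclusion of the local theorem: the point `θ` can be chosen in a given interval and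
outside of finitely many prescribed intervals, with uniform bounds of the order of a power with
exponent `γ < 1` of the majorant -/
def Core (S : Ser) (φ δ γ : ℝ) : Prop :=
  ∃ (d : ℝ) (L : Lev S d) (ψ : ℕ → ℝ) (n₀ : ℕ) (c₀ : ℝ), Tendsto ψ atTop atTop ∧
    (∀ᶠ n : ℕ in atTop, (1 + d) ^ (γ * ((n : ℝ) + 2)) ≤ ψ n) ∧ 0 < c₀ ∧
    ∀ P : Finset (ℝ × ℝ), (∀ b ∈ P, 0 < b.2) → ∑ b ∈ P, Real.sqrt b.2 ≤ c₀ →
      ∃ θ : ℝ, |θ - φ| ≤ δ ∧ (∀ b ∈ P, b.2 < |θ - b.1|) ∧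
        ∀ n, n₀ ≤ n → ∀ s ∈ Icc (L.s (n + 2)) (L.s (n + 1)), ψ n ≤ ‖S.F s θ‖

/-- comparison of geometric sequences (compare `growth_lemma` in the file of helper967) -/
lemma growth_aux {D x t γ : ℝ} (hD : 1 < D) (ht : 0 < t) (hx : D ^ γ < x) :
    ∀ᶠ n : ℕ in atTop, D ^ (γ * ((n : ℝ) + 2)) ≤ t * x ^ n := by
  have hD0 : 0 < D := by linarith
  have hp : 0 < D ^ γ := Real.rpow_pos_of_pos hD0 _
  have h1 : 1 < x / D ^ γ := by rwa [lt_div_iff₀ hp, one_mul]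
  have h2 := tendsto_pow_atTop_atTop_of_one_lt h1
  filter_upwards [h2.eventually_ge_atTop (D ^ (γ * 2) / t)] with n hn
  rw [div_le_iff₀ ht] at hn
  have e1 : D ^ (γ * ((n : ℝ) + 2)) = (D ^ γ) ^ n * D ^ (γ * 2) := by
    rw [mul_add, Real.rpow_add hD0, Real.rpow_mul hD0.le, Real.rpow_natCast]
  have e2 : x ^ n = (D ^ γ) ^ n * (x / D ^ γ) ^ n := by
    rw [← mul_pow, mul_div_cancel₀ _ hp.ne']
  rw [e1, e2]
  have h3 : 0 < (D ^ γ) ^ n := by positivity
  calc (D ^ γ) ^ n * D ^ (γ * 2) ≤ (D ^ γ) ^ n * ((x / D ^ γ) ^ n * t) :=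
        mul_le_mul_of_nonneg_left hn h3.le
    _ = t * ((D ^ γ) ^ n * (x / D ^ γ) ^ n) := by ring

/-- the initial point, near a prescribed point -/
theorem init2 {q : ℝ} (R : Par q) {S : Ser} (hq : S.q = q) (L : Lev S R.d) {g : ℕ}
    (C : Cut L R.Cs R.ε₁ R.κ g) (φ : ℝ) :
    ∃ θ₀ : ℝ, |θ₀ - φ| ≤ R.CV / S.lam 0 + (R.ε / C.Λ) / R.r₀ ∧ Good R L C θ₀ := by
  have hc := R.c_pos
  have hc1 := R.c_le
  have hs : 0 < L.s (g + 1) := L.s_pos _
  have hd : 0 < R.d := L.d_pos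
  have hM : 0 < (1 + R.d) ^ (g + 1) := by positivity
  have hV : 0 ≤ S.m C.K (L.s (g + 1)) := Finset.sum_nonneg fun k _ => S.x_nonneg k _
  have hε : 0 < R.ε := by unfold Par.ε; positivity
  have hκ : 0 < R.κ := by unfold Par.κ; positivity
  have hw : 0 < R.w := by unfold Par.w; positivity
  have hr : 0 < R.r₀ := by unfold Par.r₀; positivity
  have hl2 : 0 < R.ε / C.Λ := div_pos hε C.hΛ
  have hlam := S.lam_pos 0
  have hCV : 0 < R.CV := lt_of_lt_of_le (by norm_num) R.hCV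
  set l : ℝ := R.CV / S.lam 0 + (R.ε / C.Λ) / R.r₀ with hl
  have hl0 : 0 < l := by positivity
  have hll : R.CV ≤ S.lam 0 * l := by
    have h1 : S.lam 0 * l = R.CV + S.lam 0 * ((R.ε / C.Λ) / R.r₀) := by
      rw [hl]; field_simp
    have h2 : 0 ≤ S.lam 0 * ((R.ε / C.Λ) / R.r₀) := by positivity
    linarith
  obtain ⟨μ, β, n, hμ0, hμ, hdr⟩ := R.drift S.lam (fun k => S.x k (L.s (g + 1)))
    (fun k => (S.a k).arg) 0 C.K φ l S.lam_pos (fun k => hq ▸ S.ratio k)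
    (fun k => S.x_nonneg k _) hl0 hll
  have a1 : 24000 * Real.sqrt R.w ≤ R.c := by
    unfold Par.w
    rw [Real.sqrt_sq (by positivity)]
    linarith
  have a2 : 24000 * R.r₀ ^ ((1 : ℝ) / 4) ≤ R.c := by
    unfold Par.r₀
    have : ((R.c / 24000) ^ 4 : ℝ) ^ ((1 : ℝ) / 4) = R.c / 24000 := by
      rw [← Real.rpow_natCast, ← Real.rpow_mul (by positivity)]
      norm_num
    rw [this]; linarith
  have a3 : R.ε / C.Λ ≤ R.r₀ * l := by
    rw [hl]
    have h1 : R.r₀ * (R.CV / S.lam 0 + (R.ε / C.Λ) / R.r₀) = R.r₀ * (R.CV / S.lam 0) + R.ε / C.Λ := by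
      field_simp
    have h2 : 0 ≤ R.r₀ * (R.CV / S.lam 0) := by positivity
    linarith
  have a4 : 4 ≤ μ 0 * l := by
    have h1 : S.lam 0 * l ≤ μ 0 * l := mul_le_mul_of_nonneg_right hμ0 hl0.le
    have := R.hCV
    linarith
  have a5 : Continuous (fun θ : ℝ => ∑ k ∈ Finset.Ico 0 C.K, S.x k (L.s (g + 1)) *
      Real.cos (S.lam k * θ + (S.a k).arg)) := by
    fun_prop
  have a6 : ∀ θ : ℝ, (fun θ : ℝ => ∑ k ∈ Finset.Ico 0 C.K, S.x k (L.s (g + 1)) *
      Real.cos (S.lam k * θ + (S.a k).arg)) θ ≤ S.m C.K (L.s (g + 1)) := by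
    intro θ
    simp only [Ser.m, Finset.range_eq_Ico]
    refine Finset.sum_le_sum fun k _ => ?_
    have := Real.cos_le_one (S.lam k * θ + (S.a k).arg)
    have := S.x_nonneg k (L.s (g + 1))
    nlinarith
  have a7 : 4 * R.c * S.m C.K (L.s (g + 1)) ≤ (1 / (2 * l)) * ∫ θ in (φ - l)..(φ + l),
      rp μ β n θ * (fun θ : ℝ => ∑ k ∈ Finset.Ico 0 C.K, S.x k (L.s (g + 1)) *
      Real.cos (S.lam k * θ + (S.a k).arg)) θ := by
    rw [← R.c_eq]
    simpa only [Ser.m, Finset.range_eq_Ico] using hdr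
  obtain ⟨t, htl, ht, -⟩ := select R.c R.w R.r₀ hc hc1 hw a1 hr a2 μ β n (hlam.trans_le hμ0) hμ
    φ l (R.ε / C.Λ) ((1 + R.d) ^ (g + 1)) (S.m C.K (L.s (g + 1))) R.κ hl2 a3 a4 hM hκ hV
    _ a5 a6 a7 ∅ (by simp) (by simpa [W] using hw) ∅ (fun _ => 0) (fun _ => 0) (fun _ => ∅) 0
    (by simp) (by simp) (by simp) (by simp) (by simp) (by simp; positivity)
  refine ⟨t, htl, fun θ hθ => ?_⟩
  have h1 : ‖S.P C.K (L.s (g + 1)) t - S.P C.K (L.s (g + 1)) θ‖ ≤
      C.Λ * |t - θ| * S.m C.K (L.s (g + 1)) := S.norm_P_sub_P_le C.K C.Λ C.hK _ _ _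
  have h2 : ‖S.P C.K (L.s (g + 1)) t‖ ≤ ‖S.P C.K (L.s (g + 1)) θ‖ +
      ‖S.P C.K (L.s (g + 1)) t - S.P C.K (L.s (g + 1)) θ‖ := by
    have := norm_add_le (S.P C.K (L.s (g + 1)) θ) (S.P C.K (L.s (g + 1)) t - S.P C.K (L.s (g + 1)) θ)
    simpa using this
  have h3 : (S.P C.K (L.s (g + 1)) t).re ≤ ‖S.P C.K (L.s (g + 1)) t‖ := Complex.re_le_norm _
  rw [S.re_P] at h3
  have h4 : C.Λ * |t - θ| ≤ 2 * R.ε := by
    rw [abs_sub_comm]
    calc C.Λ * |θ - t| ≤ C.Λ * (2 * (R.ε / C.Λ)) := mul_le_mul_of_nonneg_left hθ C.hΛ.le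
      _ = 2 * R.ε := by have := C.hΛ; field_simp
  have h5 : C.Λ * |t - θ| * S.m C.K (L.s (g + 1)) ≤ 2 * R.ε * S.m C.K (L.s (g + 1)) :=
    mul_le_mul_of_nonneg_right h4 hV
  have h6 : 2 * R.ε ≤ R.c := by
    unfold Par.ε; nlinarith
  have h7 : R.κ ≤ R.κ' := by
    unfold Par.κ Par.κ'; linarith
  have h8 : 2 * R.ε * S.m C.K (L.s (g + 1)) ≤ R.c * S.m C.K (L.s (g + 1)) :=
    mul_le_mul_of_nonneg_right h6 hV
  have h9 : R.κ * (1 + R.d) ^ (g + 1) ≤ R.κ' * (1 + R.d) ^ (g + 1) :=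
    mul_le_mul_of_nonneg_right h7 hM.le
  nlinarith


/-- the case of finitely many gaps -/
theorem caseB2 (q d Kb : ℝ) (hq : 1 < q) (hd : 0 < d) (hKb : 1 < Kb) (S : Ser) (hS : S.q = q)
    (L : Lev S d) (n₀ : ℕ) (hn : ∀ n, n₀ ≤ n → L.η n ≤ Kb * L.η (n + 1)) (φ δ : ℝ) (hδ : 0 < δ)
    (γ : ℝ) (hγ : γ < 1) : Core S φ δ γ := by
  obtain ⟨m, Lm, t₀, hm, ht₀, hav⟩ := avoid_global q d Kb hq hd hKb
  -- choose r
  have hdγ : (1 + d) ^ γ < 1 + d := by
    calc (1 + d) ^ γ < (1 + d) ^ (1 : ℝ) := Real.rpow_lt_rpow_of_exponent_lt (by linarith) hγ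
      _ = 1 + d := Real.rpow_one _
  obtain ⟨r, hr0, hr1, hrm, hrγ⟩ : ∃ r : ℝ, 0 < r ∧ r < 1 ∧ 1 < r ^ m * (1 + d) ∧
      (1 + d) ^ γ < r ^ m * (1 + d) := by
    have hc : Tendsto (fun r : ℝ => r ^ m * (1 + d)) (𝓝[<] 1) (𝓝 ((1:ℝ) ^ m * (1 + d))) := by
      apply Tendsto.mono_left _ nhdsWithin_le_nhds
      have : Continuous (fun r : ℝ => r ^ m * (1 + d)) := by fun_prop
      exact this.tendsto 1
    have h1 : ∀ᶠ r in 𝓝[<] (1:ℝ), 1 < r ^ m * (1 + d) := by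
      apply hc.eventually_const_lt
      simp; exact hd
    have h2 : ∀ᶠ r in 𝓝[<] (1:ℝ), r ∈ Set.Ioo (0:ℝ) 1 := Ioo_mem_nhdsLT (by norm_num)
    have h3 : ∀ᶠ r in 𝓝[<] (1:ℝ), (1 + d) ^ γ < r ^ m * (1 + d) := by
      apply hc.eventually_const_lt
      simpa using hdγ
    obtain ⟨r, hr⟩ := ((h1.and h3).and h2).exists
    exact ⟨r, hr.2.1, hr.2.2, hr.1.1, hr.1.2⟩
  set Θ : ℝ := 1 + L.η 0 + |φ| + δ with hΘ
  have hΘ0 : 0 < Θ := by have := L.η_pos 0; positivity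
  have hηΘ : ∀ n, L.η n ≤ Θ := by
    intro n
    have h1 : L.η n ≤ L.η 0 := L.η_anti (Nat.zero_le n)
    have h2 := abs_nonneg φ
    linarith
  -- choose n1
  obtain ⟨n1, hn1, hn1s⟩ : ∃ n1, n₀ ≤ n1 ∧ 4 * (Lm:ℝ) * Θ * (r ^ n1 * (1 - r)⁻¹) < δ := by
    have hc : Tendsto (fun n : ℕ => 4 * (Lm:ℝ) * Θ * (r ^ n * (1 - r)⁻¹)) atTop (𝓝 (4 * (Lm:ℝ) * Θ * (0 * (1 - r)⁻¹))) := by
      apply Tendsto.const_mul
      apply Tendsto.mul_const
      exact tendsto_pow_atTop_nhds_zero_of_lt_one hr0.le hr1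
    have h1 : ∀ᶠ n in atTop, 4 * (Lm:ℝ) * Θ * (r ^ n * (1 - r)⁻¹) < δ := by
      apply hc.eventually_lt_const
      simpa using hδ
    obtain ⟨n, hn⟩ := (h1.and (eventually_ge_atTop n₀)).exists
    exact ⟨n, hn.2, hn.1⟩
  have hB : ∀ n, n₀ ≤ n → ∃ B : Finset ℝ,
      (B.card : ℝ) * (L.η (n + 2) / 9) ≤ Lm * (Θ + L.η (n + 2)) ∧
        ∀ θ ∈ Icc (-Θ) Θ, (∀ b ∈ B, r ^ n * (L.η (n + 2) / 9) < |θ - b|) →
          ∀ s ∈ Icc (L.s (n + 2)) (L.s (n + 1)), t₀ * (r ^ n) ^ m * (1 + d) ^ (n + 1) ≤ ‖S.F s θ‖ := by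
    intro n hn'
    obtain ⟨B, -, h1, h2⟩ := hav S hS L n (hn n hn') (hn (n+1) (by omega)) (r ^ n) Θ (by positivity)
      (pow_le_one₀ hr0.le hr1.le) hΘ0
    exact ⟨B, h1, h2⟩
  choose B hB1 hB2 using fun (n : ℕ) => hB (n + n1) (by omega)
  let U : ℕ → Set ℝ := fun n => ⋃ b ∈ B n, Icc (b - r ^ (n + n1) * (L.η (n + n1 + 2) / 9)) (b + r ^ (n + n1) * (L.η (n + n1 + 2) / 9))
  have hU : ∀ n, MeasureTheory.volume (U n) ≤ ENNReal.ofReal (4 * Lm * Θ * r ^ n1 * r ^ n) := by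
    intro n
    have hρ : 0 < L.η (n + n1 + 2) := L.η_pos _
    calc MeasureTheory.volume (U n) ≤ ∑ b ∈ B n, MeasureTheory.volume (Icc (b - r ^ (n + n1) * (L.η (n + n1 + 2) / 9)) (b + r ^ (n + n1) * (L.η (n + n1 + 2) / 9))) := MeasureTheory.measure_biUnion_finset_le _ _
      _ = ∑ b ∈ B n, ENNReal.ofReal (2 * (r ^ (n + n1) * (L.η (n + n1 + 2) / 9))) := by
          apply Finset.sum_congr rfl
          intro b _
          rw [Real.volume_Icc]
          congr 1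
          ring
      _ = ENNReal.ofReal ((B n).card * (2 * (r ^ (n + n1) * (L.η (n + n1 + 2) / 9)))) := by
          rw [Finset.sum_const, nsmul_eq_mul, ENNReal.ofReal_mul (by positivity)]
          simp
      _ ≤ ENNReal.ofReal (4 * Lm * Θ * r ^ n1 * r ^ n) := by
          apply ENNReal.ofReal_le_ofReal
          have h1 := hB1 n
          have h2 : (Lm:ℝ) * (Θ + L.η (n + n1 + 2)) ≤ Lm * (2 * Θ) := by
            apply mul_le_mul_of_nonneg_left _ (by positivity)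
            linarith [hηΘ (n + n1 + 2)]
          have h3 : ((B n).card : ℝ) * (L.η (n + n1 + 2) / 9) ≤ Lm * (2 * Θ) := h1.trans h2
          have hrp : 0 < r ^ (n + n1) := by positivity
          calc ((B n).card : ℝ) * (2 * (r ^ (n + n1) * (L.η (n + n1 + 2) / 9)))
              = 2 * r ^ (n + n1) * (((B n).card : ℝ) * (L.η (n + n1 + 2) / 9)) := by ring
            _ ≤ 2 * r ^ (n + n1) * (Lm * (2 * Θ)) := by
                apply mul_le_mul_of_nonneg_left h3 (by positivity)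
            _ = 4 * Lm * Θ * r ^ n1 * r ^ n := by rw [pow_add]; ring
  have hsum : HasSum (fun n : ℕ => 4 * (Lm:ℝ) * Θ * r ^ n1 * r ^ n) (4 * (Lm:ℝ) * Θ * r ^ n1 * (1 - r)⁻¹) :=
    (hasSum_geometric_of_lt_one hr0.le hr1).mul_left _
  have hUU : MeasureTheory.volume (⋃ n, U n) ≤ ENNReal.ofReal (4 * (Lm:ℝ) * Θ * r ^ n1 * (1 - r)⁻¹) := by
    calc MeasureTheory.volume (⋃ n, U n) ≤ ∑' n, MeasureTheory.volume (U n) := MeasureTheory.measure_iUnion_le _
      _ ≤ ∑' n, ENNReal.ofReal (4 * Lm * Θ * r ^ n1 * r ^ n) := ENNReal.tsum_le_tsum hU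
      _ = ENNReal.ofReal (∑' n, (4 * Lm * Θ * r ^ n1 * r ^ n)) := by
          rw [ENNReal.ofReal_tsum_of_nonneg (fun n => by positivity) hsum.summable]
      _ = _ := by rw [hsum.tsum_eq]
  have hψ : Tendsto (fun n : ℕ => t₀ * (r ^ n) ^ m * (1 + d) ^ (n + 1)) atTop atTop := by
    have : (fun n : ℕ => t₀ * (r ^ n) ^ m * (1 + d) ^ (n + 1)) = fun n : ℕ => (t₀ * (1 + d)) * (r ^ m * (1 + d)) ^ n := by
      funext n
      rw [← pow_mul, mul_comm n m, pow_mul, mul_pow, pow_succ]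
      ring
    rw [this]
    apply Tendsto.const_mul_atTop (by positivity)
    exact tendsto_pow_atTop_atTop_of_one_lt hrm
  have hψ2 : ∀ᶠ n : ℕ in atTop, (1 + d) ^ (γ * ((n : ℝ) + 2)) ≤ t₀ * (r ^ n) ^ m * (1 + d) ^ (n + 1) := by
    filter_upwards [growth_aux (t := t₀ * (1 + d)) (by linarith : 1 < 1 + d) (by positivity) hrγ] with n hn
    refine hn.trans (le_of_eq ?_)
    rw [← pow_mul, mul_comm n m, pow_mul, mul_pow, pow_succ]
    ring
  refine ⟨d, L, _, n1, min 1 (δ / 4), hψ, hψ2, lt_min one_pos (by positivity), fun P hP hPs => ?_⟩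
  let V : Set ℝ := ⋃ b ∈ P, Icc (b.1 - b.2) (b.1 + b.2)
  have hV : MeasureTheory.volume V ≤ ENNReal.ofReal (δ / 2) := by
    calc MeasureTheory.volume V ≤ ∑ b ∈ P, MeasureTheory.volume (Icc (b.1 - b.2) (b.1 + b.2)) :=
          MeasureTheory.measure_biUnion_finset_le _ _
      _ = ∑ b ∈ P, ENNReal.ofReal (2 * b.2) := by
          apply Finset.sum_congr rfl
          intro b _
          rw [Real.volume_Icc]
          congr 1
          ring
      _ = ENNReal.ofReal (∑ b ∈ P, 2 * b.2) := by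
          rw [ENNReal.ofReal_sum_of_nonneg]
          intro b hb
          have := hP b hb
          positivity
      _ ≤ ENNReal.ofReal (δ / 2) := by
          apply ENNReal.ofReal_le_ofReal
          have h1 : ∀ b ∈ P, 2 * b.2 ≤ 2 * Real.sqrt b.2 := by
            intro b hb
            have h2 : Real.sqrt b.2 ≤ ∑ b ∈ P, Real.sqrt b.2 :=
              Finset.single_le_sum (f := fun b : ℝ × ℝ => Real.sqrt b.2) (fun _ _ => Real.sqrt_nonneg _) hb
            have h3 : Real.sqrt b.2 ≤ 1 := h2.trans (hPs.trans (min_le_left _ _))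
            have h4 := Real.mul_self_sqrt (hP b hb).le
            have h5 := Real.sqrt_nonneg b.2
            nlinarith
          have h2 := Finset.sum_le_sum h1
          rw [← Finset.mul_sum] at h2
          rw [← Finset.mul_sum] at h2 ⊢
          have h3 := hPs.trans (min_le_right _ _)
          linarith
  obtain ⟨θ, hθ0, hθ2⟩ : ∃ θ ∈ Icc (φ - δ) (φ + δ), θ ∉ (⋃ n, U n) ∪ V := by
    by_contra hcon
    push Not at hcon
    have hsub : Icc (φ - δ) (φ + δ) ⊆ (⋃ n, U n) ∪ V := hcon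
    have h1 := (MeasureTheory.measure_mono hsub).trans ((MeasureTheory.measure_union_le _ _).trans
      (add_le_add hUU hV))
    rw [Real.volume_Icc, ← ENNReal.ofReal_add (by
      have : (0 : ℝ) < 1 - r := by linarith
      positivity) (by positivity)] at h1
    have h2 : φ + δ - (φ - δ) ≤ 4 * (Lm:ℝ) * Θ * r ^ n1 * (1 - r)⁻¹ + δ / 2 := by
      by_contra hlt
      push Not at hlt
      have := (ENNReal.ofReal_lt_ofReal_iff (by linarith : 0 < φ + δ - (φ - δ))).2 hlt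
      exact absurd h1 (not_le.2 this)
    have h3 : 4 * (Lm:ℝ) * Θ * r ^ n1 * (1 - r)⁻¹ = 4 * (Lm:ℝ) * Θ * (r ^ n1 * (1 - r)⁻¹) := by ring
    linarith
  have hθδ : |θ - φ| ≤ δ := abs_le.2 ⟨by linarith [hθ0.1], by linarith [hθ0.2]⟩
  have hθ1 : θ ∈ Icc (-Θ) Θ := by
    have h2 := neg_abs_le φ
    have h3 := le_abs_self φ
    have h4 := L.η_pos 0
    constructor
    · linarith [hθ0.1]
    · linarith [hθ0.2]
  refine ⟨θ, hθδ, fun b hb => ?_, ?_⟩
  · by_contra hcon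
    push Not at hcon
    apply hθ2
    refine Or.inr ?_
    simp only [V, mem_iUnion]
    refine ⟨b, hb, ?_⟩
    rw [abs_le] at hcon
    constructor
    · linarith [hcon.1]
    · linarith [hcon.2]
  · intro n hn' s hs
    obtain ⟨k, rfl⟩ : ∃ k, n = k + n1 := ⟨n - n1, by omega⟩
    refine hB2 k θ hθ1 ?_ s hs
    intro b hb
    by_contra hcon
    push Not at hcon
    apply hθ2
    refine Or.inl ?_
    rw [mem_iUnion]
    refine ⟨k, ?_⟩
    simp only [U, mem_iUnion]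
    refine ⟨b, hb, ?_⟩
    rw [abs_le] at hcon
    constructor
    · linarith [hcon.1]
    · linarith [hcon.2]


/-- the local theorem with avoidance of prescribed intervals -/
theorem core {q : ℝ} (R : Par q) (S : Ser) (hq : S.q = q) (hS : Tendsto S.M (𝓝[>] 0) atTop) (φ δ : ℝ)
    (hδ : 0 < δ) (hlam : R.CV / S.lam 0 ≤ δ / 4) (γ : ℝ) (hγ : γ < 1) : Core S φ δ γ := by
  classical
  have hq1 : 1 < q := hq ▸ S.one_lt_q
  have hc := R.c_pos
  have hd : 0 < R.d := by unfold Par.d; linarith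
  have hκ : 0 < R.κ := by unfold Par.κ; linarith
  have hε : 0 < R.ε := by unfold Par.ε; positivity
  have hε₁ : 0 < R.ε₁ := by
    unfold Par.ε₁
    apply Real.log_pos
    nlinarith [mul_pos hκ hd]
  have hw : 0 < R.w := by unfold Par.w; positivity
  have hr₀ : 0 < R.r₀ := by unfold Par.r₀; positivity
  have hw1 : R.w < 1 := by
    unfold Par.w
    have h1 : R.c / 24000 < 1 := by
      have := R.c_le
      linarith
    have h0 : 0 < R.c / 24000 := by positivity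
    nlinarith
  have hr₀1 : R.r₀ ≤ 1 / 4 := by
    unfold Par.r₀
    have h1 : R.c / 24000 ≤ 1 / 4 := by
      have := R.c_le
      linarith
    have h0 : 0 < R.c / 24000 := by positivity
    calc (R.c / 24000) ^ 4 ≤ (1 / 4) ^ 4 := pow_le_pow_left₀ h0.le h1 4
      _ ≤ 1 / 4 := by norm_num
  obtain ⟨L⟩ := exists_lev S hS R.d hd
  obtain ⟨Kb, hKb, hcut⟩ := exists_cut R.d hd R.Cs R.ε₁ R.κ R.one_lt_Cs hε₁ hκ
  obtain ⟨m, Lm, t₀, hm, ht₀, hav⟩ := avoid_global q R.d Kb hq1 hd hKb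
  by_cases hB : ∃ n₀, ∀ n, n₀ ≤ n → L.η n ≤ Kb * L.η (n + 1)
  · obtain ⟨n₀, hn⟩ := hB
    exact caseB2 q R.d Kb hq1 hd hKb S hq L n₀ hn φ δ hδ γ hγ
  push Not at hB
  -- the ratio r
  have hdγ : (1 + R.d) ^ γ < 1 + R.d := by
    calc (1 + R.d) ^ γ < (1 + R.d) ^ (1 : ℝ) := Real.rpow_lt_rpow_of_exponent_lt (by linarith) hγ
      _ = 1 + R.d := Real.rpow_one _
  obtain ⟨r, hr0, hr1, hrm, hrγ⟩ : ∃ r : ℝ, 0 < r ∧ r < 1 ∧ 1 < r ^ m * (1 + R.d) ∧
      (1 + R.d) ^ γ < r ^ m * (1 + R.d) := by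
    have hcont : Tendsto (fun r : ℝ => r ^ m * (1 + R.d)) (𝓝[<] 1) (𝓝 ((1 : ℝ) ^ m * (1 + R.d))) := by
      apply Tendsto.mono_left _ nhdsWithin_le_nhds
      exact (Continuous.tendsto (by fun_prop) 1)
    have h1 : (1 : ℝ) < (1 : ℝ) ^ m * (1 + R.d) := by simp [hd]
    have h2 := hcont.eventually (lt_mem_nhds h1)
    have h1' : (1 + R.d) ^ γ < (1 : ℝ) ^ m * (1 + R.d) := by simpa using hdγ
    have h2' := hcont.eventually (lt_mem_nhds h1')
    have h3 : ∀ᶠ r : ℝ in 𝓝[<] 1, r < 1 := self_mem_nhdsWithin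
    have h4 : ∀ᶠ r : ℝ in 𝓝[<] 1, 0 < r := nhdsWithin_le_nhds (lt_mem_nhds one_pos)
    obtain ⟨r, h⟩ := ((h2.and h2').and (h3.and h4)).exists
    exact ⟨r, h.2.2, h.2.1, h.1.1, h.1.2⟩
  -- smallness of the tail of the sum of square roots
  have hsq : Summable (fun n : ℕ => Real.sqrt (r ^ n)) := by
    have : (fun n : ℕ => Real.sqrt (r ^ n)) = fun n => (Real.sqrt r) ^ n := by
      funext n
      rw [Real.sqrt_eq_iff_mul_self_eq (by positivity) (by positivity), ← mul_pow, Real.mul_self_sqrt hr0.le]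
    rw [this]
    apply summable_geometric_of_lt_one (Real.sqrt_nonneg _)
    rw [Real.sqrt_lt' one_pos]
    simpa using hr1
  have hcw : 0 < R.c * R.w := mul_pos hc hw
  obtain ⟨n₁, hn₁⟩ : ∃ n₁ : ℕ, ∀ N : Finset ℕ, (∀ n ∈ N, n₁ ≤ n) →
      24000 * (Lm : ℝ) * ∑ n ∈ N, Real.sqrt (r ^ n) ≤ R.c * R.w := by
    have hpos : 0 < R.c * R.w / (24000 * (Lm : ℝ) + 1) := by positivity
    obtain ⟨s, hs⟩ := (summable_iff_vanishing_norm.1 hsq) _ hpos
    obtain ⟨b, hb⟩ := s.exists_nat_subset_range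
    refine ⟨b, fun N hN => ?_⟩
    have hdisj : Disjoint N s := by
      rw [Finset.disjoint_left]
      intro a ha has
      have h1 := Finset.mem_range.1 (hb has)
      have h2 := hN a ha
      omega
    have h3 := hs N hdisj
    rw [Real.norm_eq_abs] at h3
    have h4 := (abs_lt.1 h3).2
    rw [lt_div_iff₀ (by positivity)] at h4
    have h5 : 0 ≤ ∑ n ∈ N, Real.sqrt (r ^ n) := Finset.sum_nonneg (fun _ _ => Real.sqrt_nonneg _)
    nlinarith
  -- smallness of the levels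
  have hlev : Tendsto (fun n => L.η n * (R.ε * (2 + 1 / R.r₀))) atTop (𝓝 0) := by
    have h1 : Tendsto (fun n => L.s n - L.s (n + 1)) atTop (𝓝 (0 - 0)) :=
      L.tendsto_s.sub (L.tendsto_s.comp (tendsto_add_atTop_nat 1))
    have h2 := h1.mul_const (R.ε * (2 + 1 / R.r₀))
    simpa [Lev.η] using h2
  obtain ⟨n₃, hn₃⟩ : ∃ n₃ : ℕ, ∀ n, n₃ ≤ n → L.η n * (R.ε * (2 + 1 / R.r₀)) ≤ δ / 4 := by
    obtain ⟨n₃, h⟩ := eventually_atTop.1 (hlev.eventually (gt_mem_nhds (show (0 : ℝ) < δ / 4 by positivity)))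
    exact ⟨n₃, fun n hn => (h n hn).le⟩
  obtain ⟨n₂, hn₂⟩ : ∃ n₂ : ℕ, ∀ n, n₂ ≤ n → r ^ n ≤ 1 / 2 := by
    have := tendsto_pow_atTop_nhds_zero_of_lt_one hr0.le hr1
    have h2 := this.eventually (gt_mem_nhds (show (0 : ℝ) < 1 / 2 by norm_num))
    obtain ⟨n₂, h⟩ := eventually_atTop.1 h2
    exact ⟨n₂, fun n hn => (h n hn).le⟩
  -- gaps
  obtain ⟨g₀, hg₀3, hg₀'⟩ := hB (max (max n₁ n₂) n₃)
  have hg₀ : max n₁ n₂ ≤ g₀ := (le_max_left _ _).trans hg₀3
  have hnext : ∀ g, ∃ g', g < g' ∧ Kb * L.η (g' + 1) ≤ L.η g' ∧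
      ∀ n, g < n → n < g' → L.η n ≤ Kb * L.η (n + 1) := by
    intro g
    have hex : ∃ g', g < g' ∧ Kb * L.η (g' + 1) < L.η g' := by
      obtain ⟨g', h1, h2⟩ := hB (g + 1)
      exact ⟨g', by omega, h2⟩
    refine ⟨Nat.find hex, (Nat.find_spec hex).1, (Nat.find_spec hex).2.le, fun n h1 h2 => ?_⟩
    have := Nat.find_min hex h2
    push Not at this
    exact this h1
  choose next hn1 hn2 hn3 using hnext
  let G : ℕ → ℕ := fun i => Nat.rec g₀ (fun _ g => next g) i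
  have hG0 : G 0 = g₀ := rfl
  have hGs : ∀ i, G (i + 1) = next (G i) := fun i => rfl
  have hGlt : ∀ i, G i < G (i + 1) := fun i => hn1 (G i)
  have hGmono : StrictMono G := strictMono_nat_of_lt_succ hGlt
  have hGgap : ∀ i, Kb * L.η (G i + 1) ≤ L.η (G i) := by
    intro i
    cases i with
    | zero => exact hg₀'.le
    | succ i => exact hn2 (G i)
  have hGbet : ∀ i n, G i < n → n < G (i + 1) → L.η n ≤ Kb * L.η (n + 1) := fun i n => hn3 (G i) n
  let C : ∀ i, Cut L R.Cs R.ε₁ R.κ (G i) := fun i => Classical.choice (hcut S L (G i) (hGgap i))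
  obtain ⟨θ₀, hθφ, hθ₀⟩ := init2 R hq L (C 0) φ
  let ℓ : ℕ → ℝ := fun i => R.ε / (C i).Λ
  have hℓpos : ∀ i, 0 < ℓ i := fun i => div_pos hε (C i).hΛ
  let Θ : ℝ := |φ| + δ + 1
  have hΘ : 0 < Θ := by
    have := abs_nonneg φ
    simp only [Θ]
    linarith
  have hclose : |θ₀ - φ| + 2 * ℓ 0 ≤ δ := by
    have h1 := hn₃ g₀ ((le_max_right _ _).trans hg₀3)
    have h2 : ℓ 0 ≤ R.ε * L.η g₀ := by
      change R.ε / (C 0).Λ ≤ R.ε * L.η g₀
      rw [div_le_iff₀ (C 0).hΛ]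
      have h3 : 1 ≤ (C 0).Λ * L.η g₀ := (C 0).lower
      nlinarith
    have h3 : ℓ 0 / R.r₀ + 2 * ℓ 0 ≤ δ / 4 := by
      refine le_trans (le_of_eq ?_) ((mul_le_mul_of_nonneg_right h2
        (show (0 : ℝ) ≤ 2 + 1 / R.r₀ by positivity)).trans (le_trans (le_of_eq ?_) h1))
      · ring
      · ring
    have h4 : |θ₀ - φ| ≤ R.CV / S.lam 0 + ℓ 0 / R.r₀ := hθφ
    linarith
  have hBex : ∀ n : ℕ, ∃ B : Finset ℝ, (L.η n ≤ Kb * L.η (n + 1) → L.η (n + 1) ≤ Kb * L.η (n + 2) →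
      (∀ y : ℝ, (B.filter (fun b => |b - y| ≤ (L.η (n + 2) / 9) / 2)).card ≤ Lm) ∧
        ∀ θ ∈ Icc (-Θ) Θ, (∀ b ∈ B, r ^ n * (L.η (n + 2) / 9) < |θ - b|) →
          ∀ s ∈ Icc (L.s (n + 2)) (L.s (n + 1)), t₀ * (r ^ n) ^ m * (1 + R.d) ^ (n + 1) ≤ ‖S.F s θ‖) := by
    intro n
    by_cases h1 : L.η n ≤ Kb * L.η (n + 1)
    · by_cases h2 : L.η (n + 1) ≤ Kb * L.η (n + 2)
      · obtain ⟨B, hb1, -, hb3⟩ := hav S hq L n h1 h2 (r ^ n) Θ (by positivity)
          (pow_le_one₀ hr0.le hr1.le) hΘ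
        exact ⟨B, fun _ _ => ⟨hb1, hb3⟩⟩
      · exact ⟨∅, fun _ h => absurd h h2⟩
    · exact ⟨∅, fun h _ => absurd h h1⟩
  choose B hBB using hBex
  let N : ℕ → Finset ℕ := fun i => (Finset.Ioo (G i) (G (i + 1))).filter (fun n => n + 1 < G (i + 1))
  have hNmem : ∀ i n, n ∈ N i ↔ G i < n ∧ n + 1 < G (i + 1) := by
    intro i n
    simp only [N, Finset.mem_filter, Finset.mem_Ioo]
    constructor
    · rintro ⟨⟨h1, h2⟩, h3⟩; exact ⟨h1, h3⟩
    · rintro ⟨h1, h3⟩; exact ⟨⟨h1, by omega⟩, h3⟩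
  let Fam : ℕ → Finset (ℝ × ℝ) := fun i =>
    (N i).biUnion (fun n => (B n).image (fun b => (b, r ^ n * (L.η (n + 2) / 9))))
  have hψ : Tendsto (fun n : ℕ => min ((R.c / 4) * (1 + R.d) ^ (n + 1)) (t₀ * (r ^ m * (1 + R.d)) ^ n))
      atTop atTop := by
    rw [tendsto_atTop]
    intro b
    have h1 : Tendsto (fun n : ℕ => (R.c / 4) * (1 + R.d) ^ (n + 1)) atTop atTop := by
      apply Tendsto.const_mul_atTop (by positivity)
      exact (tendsto_pow_atTop_atTop_of_one_lt (by linarith)).comp (tendsto_add_atTop_nat 1)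
    have h2 : Tendsto (fun n : ℕ => t₀ * (r ^ m * (1 + R.d)) ^ n) atTop atTop := by
      apply Tendsto.const_mul_atTop ht₀
      exact tendsto_pow_atTop_atTop_of_one_lt hrm
    filter_upwards [h1.eventually_ge_atTop b, h2.eventually_ge_atTop b] with n ha hb
    exact le_min ha hb
  have hψ2 : ∀ᶠ n : ℕ in atTop, (1 + R.d) ^ (γ * ((n : ℝ) + 2)) ≤
      min ((R.c / 4) * (1 + R.d) ^ (n + 1)) (t₀ * (r ^ m * (1 + R.d)) ^ n) := by
    filter_upwards [growth_aux (t := t₀) (by linarith : 1 < 1 + R.d) ht₀ hrγ,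
      growth_aux (t := R.c / 4 * (1 + R.d)) (by linarith : 1 < 1 + R.d) (by positivity) hdγ] with n h1 h2
    refine le_min (h2.trans (le_of_eq ?_)) h1
    rw [pow_succ]
    ring
  refine ⟨R.d, L, _, G 0, R.w / 2 * Real.sqrt (ℓ 0), hψ, hψ2,
    mul_pos (by positivity) (Real.sqrt_pos.2 (hℓpos 0)), fun P0 hP0 hP0s => ?_⟩
  let Pf : ℕ → Finset (ℝ × ℝ) := fun i => Nat.rec P0 (fun j P => P ∪ Fam j) i
  have hPf0 : Pf 0 = P0 := rfl
  have hPfs : ∀ i, Pf (i + 1) = Pf i ∪ Fam i := fun i => rfl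
  have hFampos : ∀ i, ∀ b ∈ Fam i, 0 < b.2 := by
    intro i b hb
    simp only [Fam, Finset.mem_biUnion, Finset.mem_image] at hb
    obtain ⟨n, -, b', -, rfl⟩ := hb
    have := L.η_pos (n + 2)
    positivity
  have hPfpos : ∀ i, ∀ b ∈ Pf i, 0 < b.2 := by
    intro i
    induction i with
    | zero => intro b hb; exact hP0 b hb
    | succ i ih =>
      intro b hb
      rw [hPfs, Finset.mem_union] at hb
      rcases hb with hb | hb
      · exact ih b hb
      · exact hFampos i b hb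
  let Q : ℕ → ℝ → Prop := fun i θ => Good R L (C i) θ ∧ W (Pf i) θ (ℓ i) < R.w
  have hQ0 : Q 0 θ₀ := ⟨hθ₀, by
    rw [hPf0]
    have h1 : W P0 θ₀ (ℓ 0) ≤ ∑ b ∈ P0, Real.sqrt b.2 / Real.sqrt (ℓ 0) := by
      unfold W
      refine Finset.sum_le_sum fun b hb => ?_
      have h2 : 0 ≤ Real.sqrt b.2 / Real.sqrt (ℓ 0) := by positivity
      split_ifs
      · refine (min_le_right _ _).trans (le_of_eq ?_)
        rw [Real.sqrt_div (hP0 b hb).le]
      · exact h2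
    have h3 : ∑ b ∈ P0, Real.sqrt b.2 / Real.sqrt (ℓ 0) ≤ R.w / 2 := by
      rw [← Finset.sum_div, div_le_iff₀ (Real.sqrt_pos.2 (hℓpos 0))]
      exact hP0s
    linarith⟩
  have hGge : ∀ i, max n₁ n₂ ≤ G i := by
    intro i
    exact hg₀.trans (hGmono.monotone (Nat.zero_le i))
  have hstep : ∀ i θ, Q i θ → ℓ (i + 1) ≤ R.r₀ * ℓ i ∧ ∃ θ', |θ' - θ| ≤ ℓ i ∧ Q (i + 1) θ' := by
    rintro i θ ⟨hgood, hWi⟩
    have hge : ∀ n ∈ N i, max n₁ n₂ ≤ n := by
      intro n hn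
      exact (hGge i).trans ((hNmem i n).1 hn).1.le
    obtain ⟨h1, θ', h2, h3, h4⟩ := step R hq L (hGlt i) (C i) (C (i + 1)) θ hgood (Pf i) (hPfpos i) hWi
      (N i) (fun n hn => (hNmem i n).1 hn) (fun n => r ^ n) B Lm
      (by
        intro n hn
        obtain ⟨ha, hb⟩ := (hNmem i n).1 hn
        exact (hBB n (hGbet i n ha (by omega)) (hGbet i (n + 1) (by omega) hb)).1)
      (fun n _ => by positivity)
      (fun n hn => hn₂ n ((le_max_right _ _).trans (hge n hn)))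
      (hn₁ (N i) (fun n hn => (le_max_left _ _).trans (hge n hn)))
    exact ⟨h1, θ', h2, h3, by rw [hPfs]; exact h4⟩
  let st : (i : ℕ) → {θ // Q i θ} := fun i =>
    Nat.rec (motive := fun i => {θ // Q i θ}) ⟨θ₀, hQ0⟩
      (fun i s => ⟨Classical.choose (hstep i s.1 s.2).2, (Classical.choose_spec (hstep i s.1 s.2).2).2⟩) i
  let th : ℕ → ℝ := fun i => (st i).1
  have hth0 : th 0 = θ₀ := rfl
  have hthQ : ∀ i, Q i (th i) := fun i => (st i).2
  have hths : ∀ i, |th (i + 1) - th i| ≤ ℓ i := fun i =>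
    (Classical.choose_spec (hstep i (st i).1 (st i).2).2).1
  have hℓs : ∀ i, ℓ (i + 1) ≤ R.r₀ * ℓ i := fun i => (hstep i (st i).1 (st i).2).1
  have hℓ4 : ∀ i, ℓ (i + 1) ≤ ℓ i / 4 := by
    intro i
    have := hℓs i
    have h2 := hℓpos i
    nlinarith
  have hℓgeo : ∀ i, ℓ i ≤ ℓ 0 * (1 / 4) ^ i := by
    intro i
    induction i with
    | zero => simp
    | succ i ih =>
      have := hℓ4 i
      rw [pow_succ]
      linarith
  have hnest : ∀ i, Icc (th (i + 1) - 2 * ℓ (i + 1)) (th (i + 1) + 2 * ℓ (i + 1)) ⊆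
      Icc (th i - 2 * ℓ i) (th i + 2 * ℓ i) := by
    intro i x hx
    have h1 := abs_le.1 (hths i)
    have h2 := hℓ4 i
    have h3 := hℓpos i
    have h4 := hℓpos (i + 1)
    constructor
    · have := hx.1; linarith [h1.1]
    · have := hx.2; linarith [h1.2]
  obtain ⟨θ, hθ⟩ : (⋂ i, Icc (th i - 2 * ℓ i) (th i + 2 * ℓ i)).Nonempty := by
    apply IsCompact.nonempty_iInter_of_sequence_nonempty_isCompact_isClosed
    · exact hnest
    · intro i
      refine ⟨th i, ?_, ?_⟩ <;> linarith [hℓpos i]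
    · exact isCompact_Icc
    · intro i; exact isClosed_Icc
  rw [mem_iInter] at hθ
  have hθi : ∀ i, |θ - th i| ≤ 2 * ℓ i := by
    intro i
    rw [abs_le]
    constructor
    · linarith [(hθ i).1]
    · linarith [(hθ i).2]
  have hθδ : |θ - φ| ≤ δ := by
    have h1 := hθi 0
    rw [hth0] at h1
    have h2 : |θ - φ| ≤ |θ - θ₀| + |θ₀ - φ| := abs_sub_le θ θ₀ φ
    linarith
  have hθΘ : θ ∈ Icc (-Θ) Θ := by
    have h1 := abs_le.1 hθδ
    have h2 := neg_abs_le φ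
    have h3 := le_abs_self φ
    constructor
    · simp only [Θ]; linarith [h1.1]
    · simp only [Θ]; linarith [h1.2]
  -- the point avoids all bad intervals
  have hPfmono : ∀ i j, i ≤ j → Pf i ⊆ Pf j := by
    intro i j hij
    induction j, hij using Nat.le_induction with
    | base => exact Finset.Subset.refl _
    | succ j _ ih =>
      rw [hPfs]
      exact ih.trans Finset.subset_union_left
  have havd0 : ∀ i, ∀ b h : ℝ, 0 < h → (b, h) ∈ Pf i → h < |θ - b| := by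
    intro i b h hhpos hmem
    by_contra hcon
    push Not at hcon
    -- choose j > i with ℓ j ≤ h
    obtain ⟨j, hj⟩ : ∃ j, ℓ 0 * (1 / 4) ^ j < h := by
      have h1 : Tendsto (fun j : ℕ => ℓ 0 * (1 / 4 : ℝ) ^ j) atTop (𝓝 (ℓ 0 * 0)) :=
        (tendsto_pow_atTop_nhds_zero_of_lt_one (by norm_num) (by norm_num)).const_mul _
      rw [mul_zero] at h1
      exact (h1.eventually (gt_mem_nhds hhpos)).exists
    set k := max i j with hk
    have hk1 : ℓ k ≤ h := by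
      have h1 := hℓgeo k
      have h2 : (1 / 4 : ℝ) ^ k ≤ (1 / 4) ^ j :=
        pow_le_pow_of_le_one (by norm_num) (by norm_num) (le_max_right _ _)
      have h3 := hℓpos 0
      nlinarith
    have hmem2 : (b, h) ∈ Pf k := hPfmono i k (le_max_left _ _) hmem
    have hW := (hthQ k).2
    have hle : (1 : ℝ) ≤ W (Pf k) (th k) (ℓ k) := by
      unfold W
      have hterm : (1 : ℝ) ≤ (if |((b, h) : ℝ × ℝ).1 - th k| ≤ 2 * ℓ k + ((b, h) : ℝ × ℝ).2 then
          min 1 (Real.sqrt (((b, h) : ℝ × ℝ).2 / ℓ k)) else 0) := by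
        have hcond : |((b, h) : ℝ × ℝ).1 - th k| ≤ 2 * ℓ k + ((b, h) : ℝ × ℝ).2 := by
          have h1 := hθi k
          have h2 : |b - th k| ≤ |θ - b| + |θ - th k| := by
            have : b - th k = -(θ - b) + (θ - th k) := by ring
            rw [this]
            calc |-(θ - b) + (θ - th k)| ≤ |-(θ - b)| + |θ - th k| := abs_add_le _ _
              _ = |θ - b| + |θ - th k| := by rw [abs_neg]
          simp only
          linarith
        rw [if_pos hcond]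
        apply le_min le_rfl
        rw [Real.one_le_sqrt]
        rw [le_div_iff₀ (hℓpos k)]
        simp only
        linarith
      refine hterm.trans ?_
      apply Finset.single_le_sum (f := fun b : ℝ × ℝ => if |b.1 - th k| ≤ 2 * ℓ k + b.2 then
          min 1 (Real.sqrt (b.2 / ℓ k)) else 0) _ hmem2
      intro b' _
      show 0 ≤ (if |b'.1 - th k| ≤ 2 * ℓ k + b'.2 then min 1 (Real.sqrt (b'.2 / ℓ k)) else 0)
      split_ifs
      · exact le_min zero_le_one (Real.sqrt_nonneg _)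
      · exact le_rfl
    linarith
  have havd : ∀ i, ∀ n ∈ N i, ∀ b ∈ B n, r ^ n * (L.η (n + 2) / 9) < |θ - b| := by
    intro i n hn b hb
    refine havd0 (i + 1) b _ (by have := L.η_pos (n + 2); positivity) ?_
    rw [hPfs]
    refine Finset.mem_union_right _ ?_
    simp only [Fam, Finset.mem_biUnion, Finset.mem_image]
    exact ⟨n, hn, b, hb, rfl⟩
  refine ⟨θ, hθδ, fun b hb => havd0 0 b.1 b.2 (hP0 b hb) hb, ?_⟩
  intro n hn s hs
  -- find the window
  obtain ⟨i, hi1, hi2⟩ : ∃ i : ℕ, G i ≤ n ∧ n < G (i + 1) := by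
    have hex : ∃ j, n < G j := ⟨n + 1, by
      have := hGmono.id_le (n + 1)
      simp only [id] at this
      omega⟩
    have hpos : 0 < Nat.find hex := by
      rw [Nat.pos_iff_ne_zero]
      intro h0
      have := Nat.find_spec hex
      rw [h0] at this
      omega
    refine ⟨Nat.find hex - 1, ?_, ?_⟩
    · have := Nat.find_min hex (m := Nat.find hex - 1) (by omega)
      omega
    · have h1 : Nat.find hex - 1 + 1 = Nat.find hex := by omega
      rw [h1]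
      exact Nat.find_spec hex
  rcases eq_or_ne n (G i) with hA | hA
  · subst hA
    refine (min_le_left _ _).trans ?_
    exact Good.left (hthQ i).1 θ (hθi i) s hs
  rcases eq_or_ne (n + 1) (G (i + 1)) with hA2 | hA2
  · refine (min_le_left _ _).trans ?_
    have h1 := Good.right (hthQ (i + 1)).1 θ (hθi (i + 1)) s
      (by rw [← hA2]; exact hs)
    refine le_trans ?_ h1
    have h2 : (1 + R.d) ^ (n + 1) ≤ (1 + R.d) ^ (G (i + 1) + 1) :=
      pow_le_pow_right₀ (by linarith) (by omega)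
    have : 0 < R.c / 4 := by positivity
    nlinarith
  · have hmem : n ∈ N i := (hNmem i n).2 ⟨by omega, by omega⟩
    have h1 := (hBB n (hGbet i n (by omega) (by omega)) (hGbet i (n + 1) (by omega) (by omega))).2 θ hθΘ
      (havd i n hmem) s hs
    refine (min_le_right _ _).trans (le_trans ?_ h1)
    rw [mul_pow, ← pow_mul, ← pow_mul, mul_comm n m, pow_succ]
    have h3 : 0 < (1 + R.d) ^ n := by positivity
    have h4 : 0 < r ^ (m * n) := by positivity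
    have h5 : (1 + R.d) ^ n ≤ (1 + R.d) ^ n * (1 + R.d) := by nlinarith
    calc t₀ * (r ^ (m * n) * (1 + R.d) ^ n) = (t₀ * r ^ (m * n)) * (1 + R.d) ^ n := by ring
      _ ≤ (t₀ * r ^ (m * n)) * ((1 + R.d) ^ n * (1 + R.d)) :=
          mul_le_mul_of_nonneg_left h5 (by positivity)


end Pool.Agent.Y971.HD
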