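import Pool.Agent.Y971.HD.Core

/-!
# Hadamard series: compactness and Hausdorff measure
-/

set_option autoImplicit false

open Filter Topology Set MeasureTheory
open scoped ENNReal NNReal

namespace Pool.Agent.Y971.HD

open Pool.Agent.Helper95.Hada

lemma sum_image_le' {α β : Type*} [DecidableEq β] (s : Finset α) (g : α → β) (f : β → ℝ)
    (hf : ∀ b, 0 ≤ f b) : ∑ b ∈ s.image g, f b ≤ ∑ a ∈ s, f (g a) := by
  classical
  induction s using Finset.induction_on with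
  | empty => simp
  | insert a s ha ih =>
    rw [Finset.image_insert, Finset.sum_insert ha]
    by_cases h : g a ∈ s.image g
    · rw [Finset.insert_eq_of_mem h]
      linarith [hf (g a)]
    · rw [Finset.sum_insert h]
      linarith

/-- the growth along the levels (compare `limit_lemma`) -/
theorem growth_limit {S : Ser} {d : ℝ} (L : Lev S d) (θ : ℝ) (ψ : ℕ → ℝ) {γ : ℝ} (hγ : 0 ≤ γ)
    (hψ : ∀ᶠ n : ℕ in atTop, (1 + d) ^ (γ * ((n : ℝ) + 2)) ≤ ψ n)
    (n₀ : ℕ) (h : ∀ n, n₀ ≤ n → ∀ s ∈ Icc (L.s (n + 2)) (L.s (n + 1)), ψ n ≤ ‖S.F s θ‖) :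
    ∀ᶠ s in 𝓝[>] (0 : ℝ), S.M s ^ γ ≤ ‖S.F s θ‖ := by
  obtain ⟨n1, hn1⟩ := eventually_atTop.1 hψ
  set N := max n₀ n1 with hN
  have hmem : Set.Ioc 0 (L.s (N+1)) ∈ 𝓝[>] (0:ℝ) := Ioc_mem_nhdsGT (L.s_pos _)
  filter_upwards [hmem] with s hs
  have hex : ∃ k, L.s k < s := by
    have := (L.tendsto_s.eventually_lt_const hs.1)
    exact this.exists
  classical
  have hk := Nat.find_spec hex
  have hkmin : ∀ m < Nat.find hex, ¬ L.s m < s := fun m hm => Nat.find_min hex hm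
  set k := Nat.find hex with hkdef
  have hk2 : N + 1 < k := by
    have h1 : L.s k < L.s (N+1) := lt_of_lt_of_le hk hs.2
    exact L.anti.lt_iff_gt.1 h1
  clear_value k
  obtain ⟨n, rfl⟩ : ∃ n, k = n + 2 := ⟨k - 2, by omega⟩
  have h2 : s ≤ L.s (n + 1) := not_lt.1 (hkmin (n+1) (by omega))
  have h3 := h n (by have := le_max_left n₀ n1; omega) s ⟨hk.le, h2⟩
  have h4 := hn1 n (by have := le_max_right n₀ n1; omega)
  have hd : 0 < 1 + d := by linarith [L.d_pos]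
  have h5 : S.M s ≤ (1 + d) ^ (n + 2) := by
    rw [← L.hM (n + 2)]
    exact S.M_anti' (L.s_pos _) hk.le
  have h6 : S.M s ^ γ ≤ ((1 + d) ^ (n + 2)) ^ γ := Real.rpow_le_rpow (S.M_nonneg' s) h5 hγ
  have h7 : ((1 + d) ^ (n + 2)) ^ γ = (1 + d) ^ (γ * ((n : ℝ) + 2)) := by
    rw [← Real.rpow_natCast, ← Real.rpow_mul hd.le]
    congr 1
    push_cast
    ring
  rw [h7] at h6
  exact h6.trans (h4.trans h3)

/-- absorption of a constant -/
lemma absorb {C γ g : ℝ} (hg : 0 < g) (hγ : γ < g) :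
    ∀ᶠ x : ℝ in atTop, x ^ γ ≤ (x - C) ^ g - C := by
  have hc : (0 : ℝ) < (1 / 2) ^ g / 2 := by positivity
  have h1 := (tendsto_rpow_neg_atTop (sub_pos.2 hγ)).eventually_lt_const hc
  have h2 := (tendsto_rpow_atTop hg).eventually_ge_atTop (C / ((1 / 2) ^ g / 2))
  filter_upwards [h1, h2, eventually_ge_atTop (2 * C), eventually_gt_atTop 0] with x a0 a2 a3 a4
  have a1 : x ^ γ ≤ (1 / 2) ^ g / 2 * x ^ g := by
    have e1 : x ^ γ = x ^ (-(g - γ)) * x ^ g := by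
      rw [← Real.rpow_add a4]
      congr 1
      ring
    rw [e1]
    exact mul_le_mul_of_nonneg_right a0.le (Real.rpow_nonneg a4.le _)
  have a5 : (x / 2) ^ g ≤ (x - C) ^ g := Real.rpow_le_rpow (by positivity) (by linarith) hg.le
  have a6 : (x / 2) ^ g = (1 / 2) ^ g * x ^ g := by
    rw [← Real.mul_rpow (by norm_num) a4.le]
    congr 1
    ring
  rw [div_le_iff₀ hc] at a2
  rw [a6] at a5
  linarith

/-- avoidance of a sequence of small intervals -/
theorem core_seq {S : Ser} {φ δ γ : ℝ} (hγ : 0 ≤ γ) (h : Core S φ δ γ) : ∃ c₀ : ℝ, 0 < c₀ ∧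
    ∀ x r : ℕ → ℝ, (∀ j, 0 < r j) → Summable (fun j => Real.sqrt (r j)) →
      ∑' j, Real.sqrt (r j) ≤ c₀ →
      ∃ θ : ℝ, |θ - φ| ≤ δ ∧ (∀ j, r j ≤ |θ - x j|) ∧
        Tendsto (fun s => ‖S.F s θ‖) (𝓝[>] 0) atTop ∧
        ∀ᶠ s in 𝓝[>] (0 : ℝ), S.M s ^ γ ≤ ‖S.F s θ‖ := by
  classical
  obtain ⟨d, L, ψ, n₀, c₀, hψ, hψ2, hc₀, H⟩ := h
  refine ⟨c₀, hc₀, fun x r hr hsum hle => ?_⟩
  have hP : ∀ N : ℕ, ∃ θ : ℝ, |θ - φ| ≤ δ ∧ (∀ j < N, r j < |θ - x j|) ∧
      ∀ n, n₀ ≤ n → ∀ s ∈ Icc (L.s (n + 2)) (L.s (n + 1)), ψ n ≤ ‖S.F s θ‖ := by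
    intro N
    obtain ⟨θ, h1, h2, h3⟩ := H ((Finset.range N).image fun j => (x j, r j)) (by
      intro b hb
      obtain ⟨j, -, rfl⟩ := Finset.mem_image.1 hb
      exact hr j) (by
      refine (sum_image_le' _ _ (fun b : ℝ × ℝ => Real.sqrt b.2) fun b => Real.sqrt_nonneg _).trans ?_
      exact (hsum.sum_le_tsum _ fun j _ => Real.sqrt_nonneg _).trans hle)
    exact ⟨θ, h1, fun j hj => h2 (x j, r j) (Finset.mem_image.2 ⟨j, Finset.mem_range.2 hj, rfl⟩), h3⟩
  choose t ht1 ht2 ht3 using hP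
  have htm : ∀ N, t N ∈ Icc (φ - δ) (φ + δ) := fun N => by
    have := abs_le.1 (ht1 N)
    exact ⟨by linarith [this.1], by linarith [this.2]⟩
  obtain ⟨θ, hθ, k, hk, hlim⟩ := isCompact_Icc.tendsto_subseq htm
  refine ⟨θ, abs_le.2 ⟨by linarith [hθ.1], by linarith [hθ.2]⟩, fun j => ?_, ?_⟩
  · have h1 : Tendsto (fun i => |t (k i) - x j|) atTop (𝓝 |θ - x j|) := (hlim.sub_const _).abs
    refine ge_of_tendsto h1 ?_
    filter_upwards [hk.tendsto_atTop.eventually_gt_atTop j] with i hi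
    exact (ht2 (k i) j hi).le
  · have hmain : ∀ n, n₀ ≤ n → ∀ s ∈ Icc (L.s (n + 2)) (L.s (n + 1)), ψ n ≤ ‖S.F s θ‖ := ?_
    · exact ⟨limit_lemma L θ ψ hψ n₀ hmain, growth_limit L θ ψ hγ hψ2 n₀ hmain⟩
    intro n hn s hs
    have hs0 : 0 < s := lt_of_lt_of_le (L.s_pos _) hs.1
    have hcont : Tendsto (fun i => ‖S.F s (t (k i))‖) atTop (𝓝 ‖S.F s θ‖) := by
      have h1 : ContinuousAt S.G (⟨-s, θ⟩ : ℂ) := by
        have h2 : ({z : ℂ | z.re < 0}) ∈ 𝓝 (⟨-s, θ⟩ : ℂ) :=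
          (isOpen_lt Complex.continuous_re continuous_const).mem_nhds (by simpa using hs0)
        exact (S.differentiableOn_G.differentiableAt h2).continuousAt
      have h3 : Tendsto (fun i => (⟨-s, t (k i)⟩ : ℂ)) atTop (𝓝 (⟨-s, θ⟩ : ℂ)) := by
        have h4 : Continuous fun u : ℝ => (⟨-s, u⟩ : ℂ) := by
          have : (fun u : ℝ => (⟨-s, u⟩ : ℂ)) = fun u : ℝ => ((-s : ℝ) : ℂ) + (u : ℂ) * Complex.I := by
            funext u
            apply Complex.ext <;> simp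
          rw [this]
          fun_prop
        exact (h4.tendsto θ).comp hlim
      exact (h1.tendsto.comp h3).norm
    refine ge_of_tendsto hcont (Eventually.of_forall fun i => ?_)
    exact ht3 (k i) n hn s hs

/-- the points of infinite limit in an interval have positive measure of dimension one half -/
theorem core_haus {S : Ser} {φ δ γ : ℝ} (hγ : 0 ≤ γ) (h : Core S φ δ γ) (E : Set ℝ)
    (hE : ∀ θ : ℝ, |θ - φ| ≤ δ → Tendsto (fun s => ‖S.F s θ‖) (𝓝[>] 0) atTop →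
      (∀ᶠ s in 𝓝[>] (0 : ℝ), S.M s ^ γ ≤ ‖S.F s θ‖) → θ ∈ E) :
    0 < μH[1 / 2] E := by
  classical
  obtain ⟨c₀, hc₀, H⟩ := core_seq hγ h
  rw [pos_iff_ne_zero]
  intro h0
  rw [Measure.hausdorffMeasure_apply] at h0
  have h1 : (⨅ (t : ℕ → Set ℝ) (_ : E ⊆ ⋃ n, t n) (_ : ∀ n, Metric.ediam (t n) ≤ 1),
      ∑' n, ⨆ _ : (t n).Nonempty, Metric.ediam (t n) ^ (1 / 2 : ℝ)) = 0 := by
    refine le_antisymm ?_ bot_le
    rw [← h0]
    exact le_iSup₂ (f := fun (r : ℝ≥0∞) (_ : 0 < r) => ⨅ (t : ℕ → Set ℝ) (_ : E ⊆ ⋃ n, t n)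
      (_ : ∀ n, Metric.ediam (t n) ≤ r), ∑' n, ⨆ _ : (t n).Nonempty, Metric.ediam (t n) ^ (1 / 2 : ℝ))
      1 one_pos
  have h2 : (⨅ (t : ℕ → Set ℝ) (_ : E ⊆ ⋃ n, t n) (_ : ∀ n, Metric.ediam (t n) ≤ 1),
      ∑' n, ⨆ _ : (t n).Nonempty, Metric.ediam (t n) ^ (1 / 2 : ℝ)) < ENNReal.ofReal (c₀ / 2) := by
    rw [h1]
    exact ENNReal.ofReal_pos.2 (by positivity)
  simp only [iInf_lt_iff] at h2
  obtain ⟨t, ht, hd, hs⟩ := h2
  -- real numbers
  let D : ℕ → ℝ≥0∞ := fun n => ⨆ _ : (t n).Nonempty, Metric.ediam (t n) ^ (1 / 2 : ℝ)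
  have hDsum : ∑' n, D n < ENNReal.ofReal (c₀ / 2) := hs
  have hDtop : ∑' n, D n ≠ ∞ := (hDsum.trans ENNReal.ofReal_lt_top).ne
  have hDn : ∀ n, D n ≠ ∞ := fun n => ENNReal.ne_top_of_tsum_ne_top hDtop n
  have hsm : Summable fun n => (D n).toReal := ENNReal.summable_toReal hDtop
  have hts : ∑' n, (D n).toReal ≤ c₀ / 2 := by
    rw [← ENNReal.tsum_toReal_eq hDn]
    exact ENNReal.toReal_le_of_le_ofReal (by positivity) hDsum.le
  let ε : ℕ → ℝ := fun n => (c₀ / 4 * (1 / 2) ^ n) ^ 2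
  have hε : ∀ n, 0 < ε n := fun n => by positivity
  have hεs : ∀ n, Real.sqrt (ε n) = c₀ / 4 * (1 / 2) ^ n := fun n => Real.sqrt_sq (by positivity)
  have hgeo : HasSum (fun n : ℕ => c₀ / 4 * (1 / 2 : ℝ) ^ n) (c₀ / 4 * 2) :=
    hasSum_geometric_two.mul_left _
  let r : ℕ → ℝ := fun n => (Metric.ediam (t n)).toReal + ε n
  have hr : ∀ n, 0 < r n := fun n => add_pos_of_nonneg_of_pos ENNReal.toReal_nonneg (hε n)
  have hdiam : ∀ n, Metric.ediam (t n) ≠ ∞ := fun n => ((hd n).trans_lt ENNReal.one_lt_top).ne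
  have hsq : ∀ n, Real.sqrt ((Metric.ediam (t n)).toReal) ≤ (D n).toReal := by
    intro n
    rcases (t n).eq_empty_or_nonempty with he | hne
    · rw [he]
      simp
    · have h3 : D n = Metric.ediam (t n) ^ (1 / 2 : ℝ) := by
        simp only [D]
        rw [iSup_pos hne]
      rw [h3, Real.sqrt_eq_rpow, ← ENNReal.toReal_rpow]
  have hrs : ∀ n, Real.sqrt (r n) ≤ (D n).toReal + c₀ / 4 * (1 / 2) ^ n := by
    intro n
    have e1 := hsq n
    have e2 := hεs n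
    have e3 := Real.mul_self_sqrt (ENNReal.toReal_nonneg (a := Metric.ediam (t n)))
    have e4 := Real.mul_self_sqrt (hε n).le
    have e5 := Real.sqrt_nonneg ((Metric.ediam (t n)).toReal)
    have e6 := Real.sqrt_nonneg (ε n)
    have e7 : Real.sqrt (r n) ≤ Real.sqrt ((Metric.ediam (t n)).toReal) + Real.sqrt (ε n) := by
      apply Real.sqrt_le_iff.2
      refine ⟨by positivity, ?_⟩
      simp only [r]
      nlinarith [mul_nonneg e5 e6]
    linarith
  have hsm2 : Summable fun n => (D n).toReal + c₀ / 4 * (1 / 2 : ℝ) ^ n := hsm.add hgeo.summable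
  have hsm3 : Summable fun n => Real.sqrt (r n) :=
    Summable.of_nonneg_of_le (fun n => Real.sqrt_nonneg _) hrs hsm2
  have htot : ∑' n, Real.sqrt (r n) ≤ c₀ := by
    refine (hsm3.tsum_le_tsum hrs hsm2).trans ?_
    rw [hsm.tsum_add hgeo.summable, hgeo.tsum_eq]
    linarith
  let x : ℕ → ℝ := fun n => if hne : (t n).Nonempty then hne.choose else 0
  obtain ⟨θ, h3, h4, h5, h5'⟩ := H x r hr hsm3 htot
  obtain ⟨n, hn⟩ := mem_iUnion.1 (ht (hE θ h3 h5 h5'))
  have hne : (t n).Nonempty := ⟨θ, hn⟩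
  have hx : x n ∈ t n := by
    simp only [x]
    rw [dif_pos hne]
    exact hne.choose_spec
  have h6 : edist θ (x n) ≤ Metric.ediam (t n) := Metric.edist_le_ediam_of_mem hn hx
  have h7 : |θ - x n| ≤ (Metric.ediam (t n)).toReal := by
    rw [← Real.dist_eq, dist_edist]
    exact ENNReal.toReal_mono (hdiam n) h6
  have h8 := h4 n
  have h9 := hε n
  simp only [r] at h8
  linarith

/-- the series without its first terms -/
noncomputable def tailSer (S : Ser) (K : ℕ) : Ser where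
  q := S.q
  lam := fun k => S.lam (k + K)
  a := fun k => S.a (k + K)
  one_lt_q := S.one_lt_q
  lam_pos := fun k => S.lam_pos _
  ratio := fun k => by
    have := S.ratio (k + K)
    have h : k + 1 + K = k + K + 1 := by omega
    rw [h]
    exact this
  summ := fun s hs => (summable_nat_add_iff K).2 (S.summ s hs)

lemma tail_M (S : Ser) (K : ℕ) {s : ℝ} (hs : 0 < s) :
    S.M s - ∑ k ∈ Finset.range K, ‖S.a k‖ ≤ (tailSer S K).M s := by
  have h1 := S.tail_eq K hs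
  have h2 : (tailSer S K).M s = ∑' k, S.x (k + K) s := rfl
  have h3 : S.m K s ≤ ∑ k ∈ Finset.range K, ‖S.a k‖ := by
    unfold Ser.m
    refine Finset.sum_le_sum fun k _ => ?_
    unfold Ser.x
    have h4 : Real.exp (-(S.lam k * s)) ≤ 1 := by
      rw [Real.exp_le_one_iff]
      have := mul_pos (S.lam_pos k) hs
      linarith
    have := norm_nonneg (S.a k)
    nlinarith
  rw [h2, ← h1]
  linarith

lemma tail_F (S : Ser) (K : ℕ) {s : ℝ} (hs : 0 < s) (θ : ℝ) :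
    ‖(tailSer S K).F s θ‖ - ∑ k ∈ Finset.range K, ‖S.a k‖ ≤ ‖S.F s θ‖ := by
  have hsum : Summable (fun k => S.a k * Complex.exp (S.lam k * (⟨-s, θ⟩ : ℂ))) := by
    apply Summable.of_norm
    simp only [S.norm_term, neg_neg]
    exact S.summ_x hs
  have h1 : S.F s θ = ∑ k ∈ Finset.range K, S.a k * Complex.exp (S.lam k * (⟨-s, θ⟩ : ℂ)) +
      (tailSer S K).F s θ := by
    unfold Ser.F Ser.G
    rw [← hsum.sum_add_tsum_nat_add K]
    rfl
  have h3 : ‖∑ k ∈ Finset.range K, S.a k * Complex.exp (S.lam k * (⟨-s, θ⟩ : ℂ))‖ ≤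
      ∑ k ∈ Finset.range K, ‖S.a k‖ := by
    refine (norm_sum_le _ _).trans (Finset.sum_le_sum fun k _ => ?_)
    rw [S.norm_term]
    unfold Ser.x
    have h4 : Real.exp (-(S.lam k * (-(⟨-s, θ⟩ : ℂ).re))) ≤ 1 := by
      rw [Real.exp_le_one_iff]
      have := mul_pos (S.lam_pos k) hs
      simp only [neg_neg]
      linarith
    have := norm_nonneg (S.a k)
    nlinarith
  have h4 : (tailSer S K).F s θ = S.F s θ -
      ∑ k ∈ Finset.range K, S.a k * Complex.exp (S.lam k * (⟨-s, θ⟩ : ℂ)) := by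
    rw [h1]; ring
  have h5 := norm_sub_le (S.F s θ)
    (∑ k ∈ Finset.range K, S.a k * Complex.exp (S.lam k * (⟨-s, θ⟩ : ℂ)))
  rw [← h4] at h5
  linarith

/-- **Lacunary exponential series.** If the sum of the absolute values of the coefficients
diverges, then the modulus of the sum tends to infinity along the normals, and is at least the power
with exponent `γ` of the majorant, at the points of a set of positive Hausdorff measure of dimension
one half in every interval, for every `γ < 1`. -/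
theorem ser_haus (S : Ser) (hS : Tendsto S.M (𝓝[>] 0) atTop) (γ : ℝ) (hγ : γ < 1) (a b : ℝ)
    (hab : a < b) :
    0 < μH[1 / 2] {θ : ℝ | θ ∈ Ioo a b ∧ Tendsto (fun s => ‖S.F s θ‖) (𝓝[>] 0) atTop ∧
      ∀ᶠ s in 𝓝[>] (0 : ℝ), S.M s ^ γ ≤ ‖S.F s θ‖} := by
  obtain ⟨g, hg0, hg1, hgγ⟩ : ∃ g : ℝ, 0 < g ∧ g < 1 ∧ γ < g := by
    refine ⟨(1 + max γ 0) / 2, ?_, ?_, ?_⟩
    · have := le_max_right γ 0
      linarith
    · have := max_lt hγ one_pos
      linarith
    · have h1 := max_lt hγ one_pos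
      have h2 := le_max_left γ 0
      linarith
  obtain ⟨R⟩ := exists_par S.q S.one_lt_q
  have hCV : 0 < R.CV := lt_of_lt_of_le (by norm_num) R.hCV
  set φ : ℝ := (a + b) / 2 with hφ
  set δ : ℝ := (b - a) / 4 with hδ
  have hδ0 : 0 < δ := by rw [hδ]; linarith
  -- the tail
  obtain ⟨K, hK⟩ : ∃ K : ℕ, R.CV / S.lam K ≤ δ / 4 := by
    have h1 : Tendsto (fun k : ℕ => S.q ^ k * S.lam 0) atTop atTop :=
      (tendsto_pow_atTop_atTop_of_one_lt S.one_lt_q).atTop_mul_const (S.lam_pos 0)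
    obtain ⟨K, hK⟩ := (h1.eventually_ge_atTop (R.CV / (δ / 4))).exists
    refine ⟨K, ?_⟩
    rw [div_le_iff₀ (S.lam_pos K)]
    have h2 := hK.trans (S.lam_ge_pow K)
    rw [div_le_iff₀ (by positivity)] at h2
    linarith
  have hK' : R.CV / (tailSer S K).lam 0 ≤ δ / 4 := by
    have : (tailSer S K).lam 0 = S.lam K := by
      change S.lam (0 + K) = _
      rw [zero_add]
    rw [this]
    exact hK
  have hM : Tendsto (tailSer S K).M (𝓝[>] 0) atTop := by
    refine tendsto_atTop_mono' _ ?_ (tendsto_atTop_add_const_right _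
      (-∑ k ∈ Finset.range K, ‖S.a k‖) hS)
    filter_upwards [self_mem_nhdsWithin] with s hs
    have := tail_M S K (s := s) hs
    linarith
  have hcore := core R (tailSer S K) rfl hM φ δ hδ0 hK' g hg1
  refine core_haus hg0.le hcore _ fun θ h1 h2 h2' => ⟨?_, ?_, ?_⟩
  · have h3 := abs_le.1 h1
    constructor
    · linarith [h3.1]
    · linarith [h3.2]
  · refine tendsto_atTop_mono' _ ?_ (tendsto_atTop_add_const_right _
      (-∑ k ∈ Finset.range K, ‖S.a k‖) h2)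
    filter_upwards [self_mem_nhdsWithin] with s hs
    have := tail_F S K (s := s) hs θ
    linarith
  · filter_upwards [self_mem_nhdsWithin, h2', hS.eventually (absorb (C := ∑ k ∈ Finset.range K, ‖S.a k‖) hg0 hgγ),
      hS.eventually_ge_atTop (∑ k ∈ Finset.range K, ‖S.a k‖)] with s hs h3 h4 h5
    have h6 := tail_F S K (s := s) hs θ
    have h7 := tail_M S K (s := s) hs
    have h8 : (S.M s - ∑ k ∈ Finset.range K, ‖S.a k‖) ^ g ≤ (tailSer S K).M s ^ g :=
      Real.rpow_le_rpow (by linarith) h7 hg0.le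
    linarith

end Pool.Agent.Y971.HD
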